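import Mathlib
import Pool.Agent.Helper14_LA.Core

set_option autoImplicit false

open SimpleGraph Pool.Agent.Helper14_LA

namespace Pool.Agent.Results.MP_0a041d_co.CartesianProducts

/-- The linear arboricity of `G`: the least `k` such that `G` is the union of `k` linear forests
(acyclic graphs all of whose degrees are at most two) on the vertex set of `G`. -/
noncomputable def la {V : Type} (G : SimpleGraph V) : ℕ :=
  sInf {k : ℕ | ∃ F : Fin k → SimpleGraph V,
    (∀ i, (F i).IsAcyclic ∧ ∀ v, ((F i).neighborSet v).ncard ≤ 2) ∧ (⨆ i, F i) = G}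

lemma coveredBy_la_of_nonempty {V : Type} (G : SimpleGraph V) {k : ℕ} (h : CoveredBy G k) :
    CoveredBy G (la G) :=
  Nat.sInf_mem (s := {k : ℕ | CoveredBy G k}) ⟨k, h⟩

lemma coveredBy_la {V : Type} (G : SimpleGraph V) (h : 0 < la G) : CoveredBy G (la G) :=
  Nat.sInf_mem (Nat.nonempty_of_pos_sInf h)

lemma la_le {V : Type} (G : SimpleGraph V) {k : ℕ} (h : CoveredBy G k) : la G ≤ k :=
  Nat.sInf_le h

lemma ncard_of_regular {V : Type} [Fintype V] (G : SimpleGraph V) [DecidableRel G.Adj] {r : ℕ}
    (h : G.IsRegularOfDegree r) (v : V) : (G.neighborSet v).ncard = r := by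
  rw [← h v, ← card_neighborSet_eq_degree, ← Nat.card_eq_fintype_card, Nat.card_coe_set_eq]

/-- **The linear arboricity conjecture for Cartesian products.**
Let `G` be an `r`-regular graph (`r ≥ 1`) satisfying the linear arboricity conjecture
`la G = ⌈(r+1)/2⌉`, and let `H` be an `s`-regular graph.
Assume that `r` is odd, or `s` is even, or `H` satisfies the conjecture as well; and
assume that `⌈s/2⌉ ≤ la G` or `la H ≤ la G + ⌈s/2⌉`
(the latter holds whenever `H` satisfies the conjecture).
Then the `(r+s)`-regular graph `G □ H` satisfies the linear arboricity conjecture. -/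
theorem result (V W : Type) [Fintype V] [Nonempty V] [Fintype W] [Nonempty W]
    (G : SimpleGraph V) (H : SimpleGraph W) [DecidableRel G.Adj] [DecidableRel H.Adj]
    (r s : ℕ) (hr : 0 < r) (hG : G.IsRegularOfDegree r) (hH : H.IsRegularOfDegree s)
    (hla : la G = (r + 2) / 2)
    (hpar : Odd r ∨ Even s ∨ la H = (s + 2) / 2)
    (hs : (s + 1) / 2 ≤ la G ∨ la H ≤ la G + (s + 1) / 2) :
    la (G □ H) = (r + s + 2) / 2 := by
  classical
  have hG' := ncard_of_regular G hG
  have hH' := ncard_of_regular H hH
  have hcG : CoveredBy G ((r + 2) / 2) := by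
    rw [← hla]
    exact coveredBy_la G (by omega)
  have hcs : CoveredBy H s := greedy s _ H rfl (fun v => (hH' v).le)
  have hcH : ∃ b, CoveredBy H b ∧ b ≤ (r + 2) / 2 + (s + 1) / 2 := by
    rcases hs with h | h
    · exact ⟨s, hcs, by omega⟩
    · exact ⟨la H, coveredBy_la_of_nonempty H hcs, by omega⟩
  obtain ⟨b, hcH, hb⟩ := hcH
  have hGH : ∀ x, ((G □ H).neighborSet x).ncard = r + s := by
    intro x
    rw [← Nat.card_coe_set_eq, Nat.card_eq_fintype_card, card_neighborSet_eq_degree,
      degree_boxProd, hG x.1, hH x.2]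
  have hlow : ∀ k, CoveredBy (G □ H) k → (r + s + 2) / 2 ≤ k := fun k hk =>
    lower_bound (G □ H) (by omega) hGH hk
  have hup : CoveredBy (G □ H) ((r + s + 2) / 2) := by
    by_cases hpar2 : Odd r ∨ Even s
    · exact core G H r s b hH' hcG hcH hpar2 hb
    · push Not at hpar2
      obtain ⟨hr2, hs2⟩ := hpar2
      have hre : Even r := Nat.not_odd_iff_even.1 hr2
      have hso : Odd s := Nat.not_even_iff_odd.1 hs2
      have hlaH : la H = (s + 2) / 2 := by
        rcases hpar with h | h | h
        · exact absurd h hr2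
        · exact absurd h hs2
        · exact h
      obtain ⟨m, hm⟩ := hre
      obtain ⟨l, hl⟩ := hso
      have hcH2 : CoveredBy H ((s + 2) / 2) := by
        rw [← hlaH]
        exact coveredBy_la H (by omega)
      have h2 := core H G s r ((r + 2) / 2) hG' hcH2 hcG (Or.inl ⟨l, hl⟩) (by omega)
      have h3 := h2.comap (Equiv.prodComm V W).toEmbedding
      have h4 : (H □ G).comap (Equiv.prodComm V W).toEmbedding = G □ H := by
        ext ⟨u, w⟩ ⟨u', w'⟩
        change (H.Adj w w' ∧ u = u' ∨ G.Adj u u' ∧ w = w') ↔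
          (G.Adj u u' ∧ w = w' ∨ H.Adj w w' ∧ u = u')
        rw [or_comm]
      rw [h4] at h3
      have h5 : (s + r + 2) / 2 = (r + s + 2) / 2 := by omega
      rwa [h5] at h3
  exact le_antisymm (la_le _ hup) (hlow _ (coveredBy_la_of_nonempty _ hup))

end Pool.Agent.Results.MP_0a041d_co.CartesianProducts
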