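import Mathlib
import Pool.Agent.Helper75_LA.LineGraph

set_option autoImplicit false

open SimpleGraph Pool.Agent.Helper14_LA Pool.Agent.Helper75_LA

namespace Pool.Agent.Results.MP_0a041d_co.LineGraphs

/-- The linear arboricity of `G`: the least `k` such that `G` is the union of `k` linear forests
(acyclic graphs all of whose degrees are at most two) on the vertex set of `G`. -/
noncomputable def la {V : Type} (G : SimpleGraph V) : ℕ :=
  sInf {k : ℕ | ∃ F : Fin k → SimpleGraph V,
    (∀ i, (F i).IsAcyclic ∧ ∀ v, ((F i).neighborSet v).ncard ≤ 2) ∧ (⨆ i, F i) = G}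

lemma ncard_of_regular {V : Type} [Fintype V] (G : SimpleGraph V) [DecidableRel G.Adj] {r : ℕ}
    (h : G.IsRegularOfDegree r) (v : V) : (G.neighborSet v).ncard = r := by
  rw [← h v, ← card_neighborSet_eq_degree, ← Nat.card_eq_fintype_card, Nat.card_coe_set_eq]

/-- **The linear arboricity conjecture for line graphs.**
Let `G` be a `d`-regular graph, `d ≥ 2`, where `d` is even or `G` has a perfect matching.
Then the line graph of `G` (Mathlib's `SimpleGraph.lineGraph`), which is `(2d-2)`-regular,
satisfies the linear arboricity conjecture: its linear arboricity is `d = ⌈((2d-2)+1)/2⌉`. -/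
theorem result (V : Type) [Fintype V] [Nonempty V] (G : SimpleGraph V) [DecidableRel G.Adj]
    (d : ℕ) (hd : 2 ≤ d) (hG : G.IsRegularOfDegree d)
    (h : Even d ∨ ∃ M : G.Subgraph, M.IsPerfectMatching) :
    (∀ e, (G.lineGraph.neighborSet e).ncard = 2 * d - 2) ∧ la G.lineGraph = d := by
  classical
  have hG' := ncard_of_regular G hG
  have hreg := lineGraph_regular G d hG'
  refine ⟨hreg, ?_⟩
  have hup : CoveredBy G.lineGraph d := by
    rcases Nat.even_or_odd' d with ⟨k, hk | hk⟩
    · have := lineGraph_even G k (fun v => by rw [hG', hk])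
      rwa [← hk] at this
    · rcases h with h | ⟨M, hM⟩
      · exfalso
        obtain ⟨j, hj⟩ := h
        omega
      · have := lineGraph_odd G k (fun v => by rw [hG', hk]) M hM
        rwa [← hk] at this
  have hne : Nonempty G.edgeSet := by
    obtain ⟨v⟩ := (inferInstance : Nonempty V)
    have h1 : (G.neighborSet v).Nonempty := by
      rw [← Set.ncard_pos (Set.toFinite _), hG']
      omega
    obtain ⟨w, hw⟩ := h1
    exact ⟨⟨s(v, w), hw⟩⟩
  refine le_antisymm (Nat.sInf_le hup) ?_
  have hmem : CoveredBy G.lineGraph (la G.lineGraph) :=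
    Nat.sInf_mem (s := {k : ℕ | CoveredBy G.lineGraph k}) ⟨d, hup⟩
  have := lower_bound G.lineGraph (r := 2 * d - 2) (by omega) hreg hmem
  omega

end Pool.Agent.Results.MP_0a041d_co.LineGraphs
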